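import Mathlib
import Pool.Agent.H98.MY2

set_option autoImplicit false

namespace Pool.Agent.Results.MP_1775bc_an.MarkusYamabe

open Set Filter Topology Real Pool.Agent.H98.MY

theorem result (E : Type) [NormedAddCommGroup E] [NormedSpace ℝ E] [FiniteDimensional ℝ E]
    (f : ℝ → E → E) (J : ℝ → E → E →L[ℝ] E)
    (hf : ContinuousOn (fun p : ℝ × E => f p.1 p.2) (Ici 0 ×ˢ univ))
    (hJ : ContinuousOn (fun p : ℝ × E => J p.1 p.2) (Ici 0 ×ˢ univ))
    (hd : ∀ t, 0 ≤ t → ∀ x, HasFDerivAt (f t) (J t x) x)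
    (h0 : ∀ t, 0 ≤ t → f t 0 = 0)
    (G3 : ∀ ω : ℝ → E, Continuous ω → ∃ (T : ℝ → ℝ → E →L[ℝ] E) (K γ ε : ℝ),
      1 ≤ K ∧ 0 ≤ ε ∧ ε < γ ∧ ∀ s, 0 ≤ s →
        (∀ v, T s s v = v ∧ ∀ t, s ≤ t →
          HasDerivWithinAt (fun r => T r s v) (J t (ω t) (T t s v)) (Ici s) t) ∧
        ∀ t, s ≤ t → ‖T t s‖ ≤ K * Real.exp (-γ * (t - s) + ε * s))
    (t0 : ℝ) (ht0 : 0 ≤ t0) :
    (∀ η : ℝ, 0 < η → ∃ δ : ℝ, 0 < δ ∧ ∀ x : ℝ → E,
      (∀ t, t0 ≤ t → HasDerivWithinAt x (f t (x t)) (Ici t0) t) → ‖x t0‖ < δ →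
        ∀ t, t0 ≤ t → ‖x t‖ < η) ∧
    ∀ x : ℝ → E, (∀ t, t0 ≤ t → HasDerivWithinAt x (f t (x t)) (Ici t0) t) →
      Tendsto x atTop (𝓝 0) := by
  haveI := FiniteDimensional.complete ℝ E
  haveI := FiniteDimensional.proper ℝ E
  have cm : Continuous fun p : ℝ × E => (max p.1 0, p.2) := by fun_prop
  have mm : ∀ p : ℝ × E, (max p.1 0, p.2) ∈ Ici (0 : ℝ) ×ˢ (univ : Set E) :=
    fun p => ⟨le_max_right p.1 0, trivial⟩
  have hf' : Continuous (Function.uncurry fun t => f (max t 0)) := hf.comp_continuous cm mm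
  have hJ' : Continuous (Function.uncurry fun t => J (max t 0)) := hJ.comp_continuous cm mm
  have hd' : ∀ t x, HasFDerivAt (f (max t 0)) (J (max t 0) x) x :=
    fun t x => hd _ (le_max_right _ _) x
  have h0' : ∀ t, f (max t 0) 0 = 0 := fun t => h0 _ (le_max_right _ _)
  have K := fun η => key (f := fun t => f (max t 0)) (J := fun t => J (max t 0)) hf' hJ' hd' h0'
    (fun ω hω => by
      obtain ⟨T, K, γ, ε, _, h2, h3, h4⟩ := G3 ω hω
      refine ⟨T, K, γ, ε, by linarith, fun s hs => ⟨fun v => ⟨((h4 s hs).1 v).1, fun t ht => ?_⟩,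
        (h4 s hs).2⟩⟩
      rw [max_eq_left (hs.trans ht)]
      exact ((h4 s hs).1 v).2 t ht) ht0 (η := η)
  have ext : ∀ x : ℝ → E, (∀ t, t0 ≤ t → HasDerivWithinAt x (f t (x t)) (Ici t0) t) →
      ∃ z : ℝ → E, Continuous z ∧ (∀ t, t0 ≤ t → z t = x t) ∧
        ∀ t, t0 ≤ t → HasDerivWithinAt z (f (max t 0) (z t)) (Ici t) t := by
    intro x hx
    have c : ContinuousOn x (Ici t0) := fun t ht => (hx t ht).continuousWithinAt
    refine ⟨fun t => x (max t t0), c.comp_continuous (by fun_prop) fun t => le_max_right t t0,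
      fun t ht => by beta_reduce; rw [max_eq_left ht], fun t ht => ?_⟩
    beta_reduce
    rw [max_eq_left ht, max_eq_left (ht0.trans ht)]
    refine ((hx t ht).mono (Ici_subset_Ici.2 ht)).congr (fun r hr => ?_) ?_
    · rw [max_eq_left (ht.trans hr)]
    · rw [max_eq_left ht]
  refine ⟨fun η hη => ?_, fun x hx => ?_⟩
  · by_contra hn
    push Not at hn
    refine K η hη fun k a ha => ?_
    have p : 0 < η / 2 / ((k + 1) * exp (k * a)) := by positivity
    obtain ⟨δ, hδ, hs⟩ := small (f := fun t => f (max t 0)) (J := fun t => J (max t 0)) hJ' hd' h0'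
      ha (lt_min (half_pos hη) p)
    obtain ⟨x, hx, hx0, b, hb, hxb⟩ := hn δ hδ
    obtain ⟨z, hz, hzx, hz'⟩ := ext x hx
    have s1 := hs z hz.continuousOn (fun t ht => hz' t ht.1) (by rwa [hzx _ le_rfl])
    have hab : a < b := by
      by_contra h
      have := (s1 b ⟨hb, not_lt.1 h⟩).trans (min_le_left _ _)
      rw [hzx b hb] at this
      linarith
    refine ⟨b, z, hab, hz, fun t ht => hz' t (ha.trans ht.1), by rwa [hzx b hb], ?_⟩
    have s2 := (s1 a ⟨ha, le_rfl⟩).trans (min_le_right _ _)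
    rw [le_div_iff₀ (by positivity)] at s2
    have s3 : exp (k * a - (b - a) / (k + 1)) ≤ exp (k * a) := by
      refine exp_le_exp.2 ?_
      have : 0 ≤ (b - a) / (k + 1) := div_nonneg (by linarith) (by positivity)
      linarith
    have s4 : k * exp (k * a - (b - a) / (k + 1)) ≤ (k + 1) * exp (k * a) :=
      mul_le_mul (by linarith) s3 (exp_pos _).le (by positivity)
    nlinarith [norm_nonneg (z a)]
  · by_contra hn
    rw [Metric.tendsto_atTop] at hn
    push Not at hn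
    obtain ⟨η, hη, hn⟩ := hn
    obtain ⟨z, hz, hzx, hz'⟩ := ext x hx
    refine K η hη fun k a ha => ?_
    have l1 : Tendsto (fun b : ℝ => k * a - (b - a) / (k + 1)) atTop atBot :=
      tendsto_atBot_add_const_left _ _ (tendsto_neg_atTop_atBot.comp
        ((tendsto_atTop_add_const_right _ (-a) tendsto_id).atTop_div_const (by positivity)))
    have l2 := ((tendsto_exp_atBot.comp l1).const_mul (k : ℝ)).mul_const ‖z a‖
    rw [mul_zero, zero_mul] at l2
    obtain ⟨N, hN⟩ := eventually_atTop.1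
      ((l2.eventually (ge_mem_nhds (half_pos hη))).and (eventually_gt_atTop a))
    obtain ⟨b, hb, hxb⟩ := hn N
    have hab := (hN b hb).2
    refine ⟨b, z, hab, hz, fun t ht => hz' t (ha.trans ht.1), ?_, (hN b hb).1⟩
    rw [hzx b (ha.trans hab.le)]
    simpa using hxb

end Pool.Agent.Results.MP_1775bc_an.MarkusYamabe
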